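import Pool.Agent.H84.TI.Stm
import Pool.Graph.R_pool_sql_team_ae5b0c61.H55.PNT

set_option autoImplicit false

open Finset Filter

namespace Pool.Agent.H63.TI

open Pool.Agent.H84.TI

theorem t_LOW (hSID : S_SID) (hEXT : S_EXT) (hGOO : S_GOO) : S_LOW := by
  intro ε hε
  set L : ℝ := 1 / √6 with hL
  have h6 : (0 : ℝ) < √6 := by positivity
  have hLpos : 0 < L := by positivity
  have hLsq : L ^ 2 = 1 / 6 := by
    rw [hL, div_pow, Real.sq_sqrt (by norm_num)]
    norm_num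
  have hL1 : L ≤ 1 := by nlinarith
  set δ : ℝ := min (ε / 4) (L / 2) with hδ
  have hδ0 : 0 < δ := by
    rw [hδ]
    exact lt_min (by linarith) (by linarith)
  have hδ1 : δ ≤ ε / 4 := min_le_left _ _
  have hδ2 : δ ≤ L / 2 := min_le_right _ _
  set η : ℝ := min (ε / 4) (1 / 16) with hη
  have hη0 : 0 < η := by
    rw [hη]
    exact lt_min (by linarith) (by norm_num)
  have hη1 : η ≤ ε / 4 := min_le_left _ _
  have hη2 : η ≤ 1 / 16 := min_le_right _ _
  have hα : 0 < L - δ := by linarith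
  obtain ⟨P, hP⟩ := hEXT hη0
  have hsq : Tendsto (fun n : ℕ => √(n : ℝ)) atTop atTop :=
    Real.tendsto_sqrt_atTop.comp tendsto_natCast_atTop_atTop
  have hpr := Pool.Agent.H55.PNT.exists_prime_ap (q := 1) (a := 1) isUnit_one
    (α := L - δ) (β := L) hα (by linarith)
  have hev1 := hsq.eventually hpr
  have hev2 := hsq.eventually (eventually_ge_atTop (((P : ℝ) + 3) / (L - δ)))
  have hev3 := hsq.eventually (eventually_ge_atTop (2 / ε))
  have hev4 := hsq.eventually (eventually_gt_atTop (0 : ℝ))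
  filter_upwards [hev1, hev2, hev3, hev4] with n h1 h2 h3 h4
  obtain ⟨p, hp, -, hp1, hp2⟩ := h1
  have h5 : (P : ℝ) + 3 ≤ (L - δ) * √(n : ℝ) := by
    rw [div_le_iff₀ hα] at h2
    linarith
  have hpP : P + 3 ≤ p := by
    have : ((P + 3 : ℕ) : ℝ) ≤ (p : ℝ) := by
      push_cast
      linarith
    exact_mod_cast this
  obtain ⟨B, hBc, hBS⟩ := hSID hp (by omega)
  obtain ⟨t, ht⟩ := hP p (by omega) (by omega) B hBS hBc
  have hM : 0 < p * (p - 1) := Nat.mul_pos (by omega) (by omega)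
  haveI : NeZero (p * (p - 1)) := ⟨hM.ne'⟩
  have hn : 6 * (p * (p - 1)) ≤ n := by
    have h6' : (6 : ℝ) * ((p : ℝ) * p) ≤ n := by
      have h7 : (p : ℝ) * p ≤ (L * √(n : ℝ)) * (L * √(n : ℝ)) :=
        mul_le_mul hp2 hp2 (by positivity) (by positivity)
      have h8 : (L * √(n : ℝ)) * (L * √(n : ℝ)) = L ^ 2 * (√(n : ℝ)) ^ 2 := by ring
      rw [h8, hLsq, Real.sq_sqrt (by positivity)] at h7
      linarith
    have h7 : 6 * (p * p) ≤ n := by exact_mod_cast h6'
    have h8 : p * (p - 1) ≤ p * p := Nat.mul_le_mul_left p (by omega)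
    omega
  have hgoo := hGOO (M := p * (p - 1)) (n := n) (Nat.even_mul_pred_self p) hn B hBS t
  rw [hBc] at hgoo
  have hgoo' : (p : ℝ) - 1 ≤ (tau n 4 : ℝ) + ((Bad B (p * (p - 1) / 2) t).card : ℝ) := by
    have h7 : ((p - 1 : ℕ) : ℝ) ≤ ((tau n 4 + (Bad B (p * (p - 1) / 2) t).card : ℕ) : ℝ) := by
      exact_mod_cast hgoo
    rw [Nat.cast_sub (by omega)] at h7
    push_cast at h7
    exact h7
  have h9 : (15 / 16 - η) * ((L - δ) * √(n : ℝ)) - 1 ≤ (tau n 4 : ℝ) := by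
    have h10 : (15 / 16 - η) * ((L - δ) * √(n : ℝ)) ≤ (15 / 16 - η) * p :=
      mul_le_mul_of_nonneg_left hp1.le (by linarith)
    linarith
  rw [le_div_iff₀ h4]
  have h11 : 1 ≤ ε / 2 * √(n : ℝ) := by
    rw [div_le_iff₀ hε] at h3
    linarith
  have h12 : 15 / (16 * √6) = 15 / 16 * L := by
    rw [hL]
    field_simp
  rw [h12]
  have h13 : 15 / 16 * L - ε / 2 ≤ (15 / 16 - η) * (L - δ) := by nlinarith
  have h14 := mul_le_mul_of_nonneg_right h13 h4.le
  nlinarith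

end Pool.Agent.H63.TI
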